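import Pool.Agent.H16.GW.Targets
import Pool.Agent.H31.GB.WIN

/-!
Row IDN of the board gwf (MP_52e316_nt): the functional equation for the Mellin transforms.
-/

set_option autoImplicit false

namespace Pool.Agent.H31.GW

open MeasureTheory Set Filter Asymptotics Pool.Agent.H34.GM Pool.Agent.H34.GA Pool.Agent.H31.GB
  Pool.Agent.H16.GW
open scoped Topology

theorem melA_eq (m : ℕ) (ψ : ℝ → ℂ) (s : ℂ) :
    MelA m ψ s = mellin ψ (-((m : ℂ) * (s + ((m : ℂ) - 1) / 2))) := by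
  unfold MelA mellin
  refine setIntegral_congr_fun measurableSet_Ioi fun r _ => ?_
  rw [smul_eq_mul]
  ring

theorem re_exp (m : ℕ) (s : ℂ) : (-((m : ℂ) * (s + ((m : ℂ) - 1) / 2))).re =
    -((m : ℝ) * (s.re + ((m : ℝ) - 1) / 2)) := by
  simp

/-- convergence and differentiability of the Mellin transform -/
theorem mel_an {m : ℕ} {ψ : ℝ → ℂ} (hc : ContinuousOn ψ (Ioi 0)) {a b C : ℝ} {s : ℂ}
    (hb : ∀ r : ℝ, 0 < r → ‖ψ r‖ ≤ C * r ^ (-b)) (ha : ∀ r : ℝ, 0 < r → ‖ψ r‖ ≤ C * r ^ (-a))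
    (h1 : -((m : ℝ) * (s.re + ((m : ℝ) - 1) / 2)) < a)
    (h2 : b < -((m : ℝ) * (s.re + ((m : ℝ) - 1) / 2))) :
    IntegrableOn (fun r => ψ r * pwm m s r) (Ioi 0) ∧ DifferentiableAt ℂ (MelA m ψ) s := by
  have hloc : LocallyIntegrableOn ψ (Ioi 0) := hc.locallyIntegrableOn measurableSet_Ioi
  have htop : ψ =O[atTop] (fun r : ℝ => r ^ (-a)) := by
    refine IsBigO.of_bound C ?_
    filter_upwards [eventually_gt_atTop 0] with r hr
    rw [Real.norm_of_nonneg (Real.rpow_nonneg hr.le _)]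
    exact ha r hr
  have hbot : ψ =O[𝓝[>] 0] (fun r : ℝ => r ^ (-b)) := by
    refine IsBigO.of_bound C ?_
    filter_upwards [self_mem_nhdsWithin] with r hr
    have hr' : 0 < r := hr
    rw [Real.norm_of_nonneg (Real.rpow_nonneg hr'.le _)]
    exact hb r hr
  refine ⟨?_, ?_⟩
  · have h3 := mellinConvergent_of_isBigO_rpow (s := -((m : ℂ) * (s + ((m : ℂ) - 1) / 2))) hloc
      htop (by rw [re_exp]; exact h1) hbot (by rw [re_exp]; exact h2)
    refine (integrableOn_congr_fun (fun r _ => ?_) measurableSet_Ioi).1 h3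
    unfold pwm
    rw [smul_eq_mul]
    ring
  · have h3 := mellin_differentiableAt_of_isBigO_rpow
      (s := -((m : ℂ) * (s + ((m : ℂ) - 1) / 2))) hloc
      htop (by rw [re_exp]; exact h1) hbot (by rw [re_exp]; exact h2)
    have e1 : MelA m ψ = (mellin ψ) ∘ (fun s => -((m : ℂ) * (s + ((m : ℂ) - 1) / 2))) := by
      funext z
      exact melA_eq m ψ z
    rw [e1]
    exact DifferentiableAt.comp s h3 (by fun_prop)

/-- the Mellin transform of the sum in the region of absolute convergence -/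
theorem mel_thA {m : ℕ} (hm : 1 ≤ m) {ψ : ℝ → ℂ} {lam : ℕ → ℂ} {B : ℝ}
    (hlam : ∀ n : ℕ, 1 ≤ n → ‖(n : ℂ) ^ (((m : ℂ) - 1) / 2) * lam n‖ ≤ B * (n : ℝ) ^ m)
    {s : ℂ} (hs : (m : ℝ) + 2 < s.re) (hi : IntegrableOn (fun r => ψ r * pwm m s r) (Ioi 0))
    {L : ℂ → ℂ} (hL : IsL m 1 lam L) :
    ∫ r in Ioi (0 : ℝ), thA m ψ lam r * pwm m s r = L s * MelA m ψ s := by
  have hm0 : (0 : ℝ) < m := by exact_mod_cast hm
  have hm1 : (1 : ℝ) ≤ m := by exact_mod_cast hm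
  obtain ⟨F, hF⟩ : ∃ F : ℕ → ℝ → ℂ, F = fun (n : ℕ) (r : ℝ) => if 1 ≤ n then
      (n : ℂ) ^ (((m : ℂ) - 1) / 2) * lam n *
        (ψ (r * (n : ℝ) ^ (-(1 / (m : ℝ)))) * pwm m s r) else 0 := ⟨_, rfl⟩
  have hF1 : ∀ n, 1 ≤ n → F n = fun r => (n : ℂ) ^ (((m : ℂ) - 1) / 2) * lam n *
        (ψ (r * (n : ℝ) ^ (-(1 / (m : ℝ)))) * pwm m s r) := by
    intro n hn
    rw [hF]
    funext r
    simp [hn]
  have hF0 : ∀ n, ¬ 1 ≤ n → F n = fun _ => 0 := by
    intro n hn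
    rw [hF]
    funext r
    simp [hn]
  have e1 : ∀ r, thA m ψ lam r * pwm m s r = ∑' n, F n r := by
    intro r
    unfold thA
    rw [← tsum_mul_right, hF]
    refine tsum_congr fun n => ?_
    by_cases hn : 1 ≤ n
    · simp only [if_pos hn]
      ring
    · simp only [if_neg hn, zero_mul]
  have hFi : ∀ n, Integrable (F n) (volume.restrict (Ioi 0)) := by
    intro n
    by_cases hn : 1 ≤ n
    · rw [hF1 n hn]
      exact (int_scal hm s hi hn).1.const_mul _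
    · rw [hF0 n hn]
      exact integrable_zero _ _ _
  -- the norms
  obtain ⟨I0, hI0⟩ : ∃ I0 : ℝ, I0 = ∫ r in Ioi (0 : ℝ), ‖ψ r * pwm m s r‖ := ⟨_, rfl⟩
  have hI0nn : 0 ≤ I0 := by
    rw [hI0]
    exact integral_nonneg fun r => norm_nonneg _
  have hBnn : 0 ≤ B := by
    have h := hlam 1 le_rfl
    have h2 : (0 : ℝ) ≤ B * ((1 : ℕ) : ℝ) ^ m := (norm_nonneg _).trans h
    simpa using h2
  have hFn : ∀ n, 1 ≤ n → ∫ r in Ioi (0 : ℝ), ‖F n r‖ ≤ B * I0 * (n : ℝ) ^ (-(2 : ℝ)) := by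
    intro n hn
    have hn0 : (0 : ℝ) < n := by exact_mod_cast hn
    have hn1 : (1 : ℝ) ≤ n := by exact_mod_cast hn
    obtain ⟨c, hc⟩ : ∃ c : ℝ, c = (n : ℝ) ^ (-(1 / (m : ℝ))) := ⟨_, rfl⟩
    have hc0 : 0 < c := by
      rw [hc]
      positivity
    have h1 : ∀ r ∈ Ioi (0 : ℝ), ‖F n r‖ =
        ‖(n : ℂ) ^ (((m : ℂ) - 1) / 2) * lam n‖ *
          (c * (n : ℝ) ^ (-(s.re + ((m : ℝ) - 1) / 2))) * ‖ψ (r * c) * pwm m s (r * c)‖ := by
      intro r hr
      rw [hF1 n hn]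
      simp only
      rw [scal_pwm hm s hn hr, ← hc]
      simp only [norm_mul, Complex.norm_real, Real.norm_of_nonneg hc0.le]
      rw [Complex.norm_natCast_cpow_of_pos (by omega : 0 < n) (-(s + ((m : ℂ) - 1) / 2))]
      have e3 : (-(s + ((m : ℂ) - 1) / 2)).re = -(s.re + ((m : ℝ) - 1) / 2) := by simp
      rw [e3]
      ring
    rw [setIntegral_congr_fun measurableSet_Ioi h1, integral_const_mul]
    have h3 := integral_comp_mul_right_Ioi (fun r => ‖ψ r * pwm m s r‖) 0 hc0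
    rw [zero_mul, ← hI0, smul_eq_mul] at h3
    rw [h3]
    have h4 : ‖(n : ℂ) ^ (((m : ℂ) - 1) / 2) * lam n‖ *
          (c * (n : ℝ) ^ (-(s.re + ((m : ℝ) - 1) / 2))) * (c⁻¹ * I0) =
        ‖(n : ℂ) ^ (((m : ℂ) - 1) / 2) * lam n‖ *
          (n : ℝ) ^ (-(s.re + ((m : ℝ) - 1) / 2)) * I0 := by
      field_simp
    rw [h4]
    have h5 : (n : ℝ) ^ m * (n : ℝ) ^ (-(s.re + ((m : ℝ) - 1) / 2)) ≤ (n : ℝ) ^ (-(2 : ℝ)) := by
      rw [← Real.rpow_natCast, ← Real.rpow_add hn0]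
      refine Real.rpow_le_rpow_of_exponent_le hn1 ?_
      linarith
    calc ‖(n : ℂ) ^ (((m : ℂ) - 1) / 2) * lam n‖ *
          (n : ℝ) ^ (-(s.re + ((m : ℝ) - 1) / 2)) * I0 ≤
        (B * (n : ℝ) ^ m) * (n : ℝ) ^ (-(s.re + ((m : ℝ) - 1) / 2)) * I0 := by
          refine mul_le_mul_of_nonneg_right (mul_le_mul_of_nonneg_right (hlam n hn)
            (by positivity)) hI0nn
      _ = B * I0 * ((n : ℝ) ^ m * (n : ℝ) ^ (-(s.re + ((m : ℝ) - 1) / 2))) := by ring
      _ ≤ _ := mul_le_mul_of_nonneg_left h5 (by positivity)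
  have hsum : Summable fun n : ℕ => ∫ r in Ioi (0 : ℝ), ‖F n r‖ := by
    have h1 : Summable fun n : ℕ => B * I0 * (n : ℝ) ^ (-(2 : ℝ)) :=
      (Real.summable_nat_rpow.2 (by norm_num)).mul_left _
    refine Summable.of_nonneg_of_le (fun n => integral_nonneg fun r => norm_nonneg _)
      (fun n => ?_) h1
    by_cases hn : 1 ≤ n
    · exact hFn n hn
    · rw [hF0 n hn]
      simp only [norm_zero, integral_zero]
      positivity
  have h6 := integral_tsum_of_summable_integral_norm hFi hsum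
  simp only [e1]
  rw [← h6]
  have h7 : ∀ n, ∫ r in Ioi (0 : ℝ), F n r =
      (if 1 ≤ n ∧ n.Coprime 1 then lam n * (n : ℂ) ^ (-s) else 0) * MelA m ψ s := by
    intro n
    by_cases hn : 1 ≤ n
    · rw [hF1 n hn]
      simp only
      rw [integral_const_mul, (int_scal hm s hi hn).2, if_pos ⟨hn, Nat.coprime_one_right n⟩]
      have hn0 : (n : ℂ) ≠ 0 := by
        exact_mod_cast (by omega : n ≠ 0)
      have e2 : (n : ℂ) ^ (-s) = (n : ℂ) ^ (((m : ℂ) - 1) / 2) *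
          (n : ℂ) ^ (-(s + ((m : ℂ) - 1) / 2)) := by
        rw [← Complex.cpow_add _ _ hn0]
        congr 1
        ring
      rw [e2]
      ring
    · rw [hF0 n hn, if_neg (fun h => hn h.1)]
      simp
  rw [tsum_congr h7, tsum_mul_right, (hL.2 s hs).tsum_eq]

/-- the change of variables -/
theorem lm_dual {m : ℕ} (hm : 1 ≤ m) {N : ℝ} (hN : 1 ≤ N) {ψ ψ' : ℝ → ℂ} {lam : ℕ → ℂ}
    (hfe : ∀ r : ℝ, 0 < r → thA m ψ lam r = ((r ^ (m ^ 2) * N ^ (-((m : ℝ) / 2)) : ℝ) : ℂ) *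
      (starRingEnd ℂ) (thA m ψ' lam (N ^ (1 / (m : ℝ)) / r))) (s : ℂ) :
    (starRingEnd ℂ) (LmA m ψ lam (1 - (starRingEnd ℂ) s)) =
      (N : ℂ) ^ (s - 1 / 2) * ∫ r in Ioi (0 : ℝ), thA m ψ' lam r * pwm m s r := by
  have hm0 : (0 : ℝ) < m := by exact_mod_cast hm
  have hmC : (m : ℂ) ≠ 0 := by exact_mod_cast hm0.ne'
  have hN0 : 0 < N := by linarith
  obtain ⟨c, hc⟩ : ∃ c : ℝ, c = N ^ (1 / (m : ℝ)) := ⟨_, rfl⟩
  have hc0 : 0 < c := by
    rw [hc]
    positivity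
  have hlc : Real.log N = m * Real.log c := by
    rw [hc, Real.log_rpow hN0]
    field_simp
  obtain ⟨g, hg⟩ : ∃ g : ℝ → ℂ, g = fun r => thA m ψ lam r *
      pwm m (1 - (starRingEnd ℂ) s) r := ⟨_, rfl⟩
  have h1 : LmA m ψ lam (1 - (starRingEnd ℂ) s) = ∫ r in Ioi (0 : ℝ), g r := by
    rw [hg]
    rfl
  have h2 := integral_comp_rpow_Ioi g (p := -1) (by norm_num)
  have h3 := integral_comp_mul_left_Ioi
    (fun x : ℝ => (|(-1 : ℝ)| * x ^ ((-1 : ℝ) - 1)) • g (x ^ (-1 : ℝ))) 0 (inv_pos.2 hc0)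
  rw [mul_zero, inv_inv, h2, ← h1] at h3
  have h4 : LmA m ψ lam (1 - (starRingEnd ℂ) s) = (c : ℂ)⁻¹ *
      ∫ x in Ioi (0 : ℝ), (|(-1 : ℝ)| * (c⁻¹ * x) ^ ((-1 : ℝ) - 1)) • g ((c⁻¹ * x) ^ (-1 : ℝ)) := by
    rw [h3, Complex.real_smul, ← mul_assoc, inv_mul_cancel₀ (by exact_mod_cast hc0.ne'), one_mul]
  have h5 : ∀ x ∈ Ioi (0 : ℝ),
      (c : ℂ)⁻¹ * ((|(-1 : ℝ)| * (c⁻¹ * x) ^ ((-1 : ℝ) - 1)) • g ((c⁻¹ * x) ^ (-1 : ℝ))) =
      (starRingEnd ℂ) ((N : ℂ) ^ (s - 1 / 2) * (thA m ψ' lam x * pwm m s x)) := by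
    intro x hx
    have hx0 : 0 < x := hx
    have hcx : 0 < c / x := by positivity
    have e1 : (c⁻¹ * x) ^ (-1 : ℝ) = c / x := by
      rw [Real.rpow_neg_one]
      field_simp
    have e2 : |(-1 : ℝ)| * (c⁻¹ * x) ^ ((-1 : ℝ) - 1) = c ^ 2 / x ^ 2 := by
      rw [show ((-1 : ℝ) - 1) = -((2 : ℕ) : ℝ) by norm_num, Real.rpow_neg (by positivity),
        Real.rpow_natCast, abs_neg, abs_one, one_mul]
      field_simp
    have e3 : N ^ (1 / (m : ℝ)) / (c / x) = x := by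
      rw [← hc]
      field_simp
    rw [e1, e2, hg]
    simp only
    rw [hfe _ hcx, e3, map_mul, map_mul, Complex.real_smul]
    unfold pwm
    have hk : ∀ {y : ℝ} (hy : 0 < y) (e : ℂ), (starRingEnd ℂ) (((y : ℝ) : ℂ) ^ e) =
        ((y : ℝ) : ℂ) ^ ((starRingEnd ℂ) e) := by
      intro y hy e
      rw [cpow_pos hy, cpow_pos hy, ← Complex.exp_conj, map_mul, Complex.conj_ofReal]
    rw [hk hN0, hk hx0]
    have e4 : ((c / x) ^ (m ^ 2) * N ^ (-((m : ℝ) / 2)) : ℝ) =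
        Real.exp ((m : ℝ) ^ 2 * (Real.log c - Real.log x) - m / 2 * Real.log N) := by
      rw [← Real.rpow_natCast, Real.rpow_def_of_pos hcx, Real.rpow_def_of_pos hN0,
        ← Real.exp_add, Real.log_div hc0.ne' hx0.ne']
      congr 1
      push_cast
      ring
    have e5 : c ^ 2 / x ^ 2 = Real.exp (2 * Real.log c - 2 * Real.log x) := by
      rw [Real.exp_sub, ← Real.log_rpow hc0, ← Real.log_rpow hx0, Real.exp_log (by positivity),
        Real.exp_log (by positivity)]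
      norm_cast
    have e6 : (c : ℂ)⁻¹ = Complex.exp (((-Real.log c : ℝ)) : ℂ) := by
      rw [← Complex.ofReal_exp, Real.exp_neg, Real.exp_log hc0]
      push_cast
      rfl
    rw [e4, e5, e6, cpow_pos hN0, cpow_pos hx0, cpow_pos hcx, Complex.ofReal_exp,
      Complex.ofReal_exp, Real.log_div hc0.ne' hx0.ne', hlc]
    simp only [map_sub, map_add, map_mul, map_neg, map_one, map_div₀, map_natCast, map_ofNat]
    have e7 : ∀ a b c d T : ℂ, Complex.exp a * (Complex.exp b * (Complex.exp c * T *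
        Complex.exp d)) = Complex.exp (a + b + c + d) * T := by
      intro a b c d T
      rw [Complex.exp_add, Complex.exp_add, Complex.exp_add]
      ring
    have e8 : ∀ a b T : ℂ, Complex.exp a * (T * Complex.exp b) = Complex.exp (a + b) * T := by
      intro a b T
      rw [Complex.exp_add]
      ring
    rw [e7, e8]
    congr 2
    push_cast
    ring
  rw [h4, ← integral_const_mul, setIntegral_congr_fun measurableSet_Ioi h5, integral_conj,
    Complex.conj_conj, integral_const_mul]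

theorem pf_IDN : T_IDN := by
  intro m K0 N B r0 lam ψ ψ' L hm hN hr0 hψ hψ' hsup hK hlam hfe hL hLm
  have hm0 : (0 : ℝ) < m := by exact_mod_cast hm
  have hm1 : (1 : ℝ) ≤ m := by exact_mod_cast hm
  have hN0 : 0 < N := by linarith
  have hNC : (N : ℂ) ≠ 0 := by exact_mod_cast hN0.ne'
  have hr00 : 0 < r0 := by linarith
  -- the dual weight
  have hD : ∀ s : ℂ, (K0 : ℝ) < m * (s.re + ((m : ℝ) - 1) / 2) →
      IntegrableOn (fun r => ψ' r * pwm m s r) (Ioi 0) ∧ DifferentiableAt ℂ (MelA m ψ') s := by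
    intro s hs
    obtain ⟨C1, h1⟩ := hK K0 le_rfl
    obtain ⟨K, hKe⟩ := exists_nat_gt ((m : ℝ) * (s.re + ((m : ℝ) - 1) / 2))
    have hKK : K0 ≤ K := by
      have : (K0 : ℝ) < K := hs.trans hKe
      exact_mod_cast this.le
    obtain ⟨C2, h2⟩ := hK K hKK
    refine mel_an hψ' (a := -(K0 : ℝ)) (b := -(K : ℝ)) (C := max C1 C2) ?_ ?_ (by linarith)
      (by linarith)
    · intro r hr
      rw [neg_neg, Real.rpow_natCast]
      exact (h2 r hr).trans (mul_le_mul_of_nonneg_right (le_max_right _ _) (by positivity))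
    · intro r hr
      rw [neg_neg, Real.rpow_natCast]
      exact (h1 r hr).trans (mul_le_mul_of_nonneg_right (le_max_left _ _) (by positivity))
  -- the weight with compact support
  have hE : ∀ s : ℂ, DifferentiableAt ℂ (MelA m ψ) s := by
    intro s
    obtain ⟨B1, hB1⟩ := isCompact_Icc.exists_bound_of_continuousOn
      (hψ.mono (fun r (hr : r ∈ Icc r0⁻¹ r0) => lt_of_lt_of_le (inv_pos.2 hr00) hr.1))
    have hB0 : 0 ≤ B1 := (norm_nonneg _).trans
      (hB1 1 ⟨inv_le_one_of_one_le₀ hr0, hr0⟩)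
    obtain ⟨e, he⟩ : ∃ e : ℝ, e = -((m : ℝ) * (s.re + ((m : ℝ) - 1) / 2)) := ⟨_, rfl⟩
    have hgen : ∀ a : ℝ, ∀ r : ℝ, 0 < r → ‖ψ r‖ ≤ (B1 * r0 ^ |a|) * r ^ (-a) := by
      intro a r hr
      by_cases h0 : ψ r = 0
      · rw [h0, norm_zero]
        positivity
      · have h1 := hsup r hr h0
        have h2 := hB1 r h1
        have h3 : 1 ≤ r0 ^ |a| * r ^ (-a) := by
          rcases le_total 0 a with ha | ha
          · rw [abs_of_nonneg ha, Real.rpow_neg hr.le, ← div_eq_mul_inv,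
              le_div_iff₀ (by positivity), one_mul]
            exact Real.rpow_le_rpow hr.le h1.2 ha
          · rw [abs_of_nonpos ha, ← Real.mul_rpow hr00.le hr.le]
            refine Real.one_le_rpow ?_ (by linarith)
            have h4 := mul_le_mul_of_nonneg_left h1.1 hr00.le
            rwa [mul_inv_cancel₀ hr00.ne'] at h4
        calc ‖ψ r‖ ≤ B1 * 1 := by rw [mul_one]; exact h2
          _ ≤ B1 * (r0 ^ |a| * r ^ (-a)) := mul_le_mul_of_nonneg_left h3 hB0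
          _ = _ := by ring
    refine (mel_an hψ (a := e + 1) (b := e - 1)
      (C := max (B1 * r0 ^ |e - 1|) (B1 * r0 ^ |e + 1|)) ?_ ?_ (by rw [← he]; linarith)
      (by rw [← he]; linarith)).2
    · intro r hr
      exact (hgen _ r hr).trans (mul_le_mul_of_nonneg_right (le_max_left _ _) (by positivity))
    · intro r hr
      exact (hgen _ r hr).trans (mul_le_mul_of_nonneg_right (le_max_right _ _) (by positivity))
  intro s hs
  refine ⟨(hD s hs).2, ?_⟩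
  -- the two sides
  obtain ⟨U, hU⟩ : ∃ U : Set ℂ, U = {s : ℂ | (K0 : ℝ) < m * (s.re + ((m : ℝ) - 1) / 2)} :=
    ⟨_, rfl⟩
  have hUo : IsOpen U := by
    rw [hU]
    exact isOpen_lt continuous_const (by fun_prop)
  have hUc : IsPreconnected U := by
    have : U = Complex.re ⁻¹' (Ioi ((K0 : ℝ) / m - ((m : ℝ) - 1) / 2)) := by
      rw [hU]
      ext z
      show (K0 : ℝ) < m * (z.re + ((m : ℝ) - 1) / 2) ↔ (K0 : ℝ) / m - ((m : ℝ) - 1) / 2 < z.re
      rw [sub_lt_iff_lt_add, div_lt_iff₀ hm0]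
      constructor <;> intro h <;> linarith
    rw [this]
    exact ((convex_Ioi _).is_linear_preimage Complex.reLm.isLinear).isPreconnected
  have hA1 : AnalyticOnNhd ℂ (fun s => L s * MelA m ψ' s) U := by
    refine DifferentiableOn.analyticOnNhd (fun z hz => ?_) hUo
    have hz' : (K0 : ℝ) < m * (z.re + ((m : ℝ) - 1) / 2) := by
      rw [hU] at hz
      exact hz
    exact ((hL.1 z).mul (hD z hz').2).differentiableWithinAt
  have hcj : ∀ (h : ℂ → ℂ), (∀ z, DifferentiableAt ℂ h z) → ∀ z,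
      DifferentiableAt ℂ (fun s => (starRingEnd ℂ) (h (1 - (starRingEnd ℂ) s))) z := by
    intro h hh z
    have h1 : DifferentiableAt ℂ (fun w => h (1 - w)) ((starRingEnd ℂ) z) :=
      DifferentiableAt.comp _ (hh _) (by fun_prop)
    have h2 := h1.conj_conj
    rw [Complex.conj_conj] at h2
    exact h2
  have hA2 : AnalyticOnNhd ℂ (fun s => (N : ℂ) ^ (1 / 2 - s) *
      (starRingEnd ℂ) (L (1 - (starRingEnd ℂ) s) * MelA m ψ (1 - (starRingEnd ℂ) s))) U := by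
    refine DifferentiableOn.analyticOnNhd (fun z _ => ?_) hUo
    have h1 : DifferentiableAt ℂ (fun s : ℂ => (N : ℂ) ^ (1 / 2 - s)) z :=
      DifferentiableAt.const_cpow (by fun_prop) (Or.inl hNC)
    exact (h1.mul (hcj (fun w => L w * MelA m ψ w) (fun w => (hL.1 w).mul (hE w)) z)).differentiableWithinAt
  -- the region of absolute convergence
  obtain ⟨x0, hx0⟩ : ∃ x0 : ℝ, x0 = (m : ℝ) + 2 + K0 := ⟨_, rfl⟩
  have hreg : ∀ z : ℂ, x0 < z.re → (m : ℝ) + 2 < z.re ∧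
      (K0 : ℝ) < m * (z.re + ((m : ℝ) - 1) / 2) := by
    intro z hz
    have hk : (0 : ℝ) ≤ K0 := Nat.cast_nonneg _
    refine ⟨by linarith, ?_⟩
    have h1 : z.re ≤ m * (z.re + ((m : ℝ) - 1) / 2) := by
      have : 0 ≤ z.re := by linarith
      nlinarith
    linarith
  have heq : ∀ z : ℂ, x0 < z.re → L z * MelA m ψ' z = (N : ℂ) ^ (1 / 2 - z) *
      (starRingEnd ℂ) (L (1 - (starRingEnd ℂ) z) * MelA m ψ (1 - (starRingEnd ℂ) z)) := by
    intro z hz
    obtain ⟨h1, h2⟩ := hreg z hz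
    rw [← hLm, lm_dual hm hN hfe z, mel_thA hm hlam h1 (hD z h2).1 hL, ← mul_assoc,
      ← Complex.cpow_add _ _ hNC, show (1 / 2 - z + (z - 1 / 2) : ℂ) = 0 by ring,
      Complex.cpow_zero, one_mul]
  have hz0 : (((x0 + 1 : ℝ)) : ℂ) ∈ U := by
    rw [hU]
    exact (hreg _ (by rw [Complex.ofReal_re]; linarith)).2
  have hfin := hA1.eqOn_of_preconnected_of_eventuallyEq hA2 hUc hz0 (by
    have hO : IsOpen {z : ℂ | x0 < z.re} := isOpen_lt continuous_const Complex.continuous_re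
    have hmem : (((x0 + 1 : ℝ)) : ℂ) ∈ {z : ℂ | x0 < z.re} := by
      show x0 < (((x0 + 1 : ℝ)) : ℂ).re
      rw [Complex.ofReal_re]
      linarith
    filter_upwards [hO.mem_nhds hmem] with z hz
    exact heq z hz)
  exact hfin (by rw [hU]; exact hs)

end Pool.Agent.H31.GW
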